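import Pool.Agent.W580.SH.StmB

/-! # SH-SEP: separation -/

set_option autoImplicit false

namespace Pool.Agent.W85.SH

open Pool.Agent.W580.SH

theorem perm3 : ∀ a b c : Fin 3, a ≠ b → a ≠ c → b ≠ c →
    ∃ σ : Equiv.Perm (Fin 3), σ 0 = a ∧ σ 1 = b ∧ σ 2 = c := by decide

theorem third : ∀ a b : Fin 3, a ≠ b → ∃ c : Fin 3, c ≠ a ∧ c ≠ b := by decide

theorem main : S_SEP := by
  intro R _ _ J A hbin l u v hP j hj hjl hne
  have hb : ∀ i r, u i r = 0 ∨ u i r = 1 := fun i r => hbin _ (hP.1 i).1 r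
  obtain ⟨a, b, c, hab, hac, hbc, hj1, hj2⟩ : ∃ a b c : Fin 3, a ≠ b ∧ a ≠ c ∧ b ≠ c ∧
      u a j = u c j ∧ u b j ≠ u a j := by
    obtain ⟨i, i', hii⟩ := hne
    have hne' : i ≠ i' := fun h => hii (by rw [h])
    obtain ⟨i'', h1, h2⟩ := third i i' hne'
    by_cases h3 : u i'' j = u i j
    · exact ⟨i, i', i'', hne', h1.symm, h2.symm, h3.symm, fun h => hii h.symm⟩
    · have h4 : u i'' j = u i' j := by
        rcases hb i'' j with e1 | e1 <;> rcases hb i j with e2 | e2 <;>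
          rcases hb i' j with e3 | e3 <;> omega
      exact ⟨i', i, i'', hne'.symm, h2.symm, h1.symm, h4.symm, hii⟩
  obtain ⟨k, hk, hkl, hkne⟩ := hP.2 a c hac
  have hkj : k ≠ j := fun h => hkne (by rw [h]; exact hj1)
  have key : ∀ x y : Fin 3, x ≠ b → y ≠ b → x ≠ y → u x j = u y j → u b j ≠ u x j →
      u b k = u x k → u x k ≠ u y k →
      ∃ k ∈ J, k ≠ l ∧ k ≠ j ∧ ∃ e g : ℤ, (e = 0 ∨ e = 1) ∧ (g = 0 ∨ g = 1) ∧
        ∃ σ : Equiv.Perm (Fin 3), Prism A l j k e g (u ∘ σ) (v ∘ σ) := by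
    intro x y hxb hyb hxy e1 e2 e3 e4
    obtain ⟨σ, s0, s1, s2⟩ := perm3 x b y hxb hxy hyb.symm
    refine ⟨k, hk, hkl, hkj, u b j, u y k, hb b j, hb y k, σ, ?_, ?_, ?_, ?_, ?_, ?_, ?_⟩
    · intro i
      obtain ⟨h1, h2, h3, h4, h5⟩ := hP.1 (σ i)
      exact ⟨h1, h2, h3, h4, (h5 j hj hjl).symm, (h5 k hk hkl).symm⟩
    · simp only [Function.comp_apply, s0]
      rcases hb x j with f1 | f1 <;> rcases hb b j with f2 | f2 <;> omega
    · simp only [Function.comp_apply, s0]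
      rcases hb x k with f1 | f1 <;> rcases hb y k with f2 | f2 <;> omega
    · simp only [Function.comp_apply, s1]
    · simp only [Function.comp_apply, s1]
      rcases hb x k with f1 | f1 <;> rcases hb y k with f2 | f2 <;> omega
    · simp only [Function.comp_apply, s2]
      rcases hb x j with f1 | f1 <;> rcases hb b j with f2 | f2 <;> omega
    · simp only [Function.comp_apply, s2]
  by_cases h : u b k = u a k
  · exact key a c hab hbc.symm hac hj1 hj2 h hkne
  · have h' : u b k = u c k := by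
      rcases hb a k with e1 | e1 <;> rcases hb b k with e2 | e2 <;>
        rcases hb c k with e3 | e3 <;> omega
    exact key c a hbc.symm hab hac.symm hj1.symm (fun h => hj2 (h.trans hj1.symm)) h' hkne.symm

end Pool.Agent.W85.SH
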